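import Pool.Agent.Lib.MP_7f8aca_lc.Main

set_option autoImplicit false

open FirstOrder FirstOrder.Language

namespace Pool.Agent.Results.MP_7f8aca_lc.Counterexample

open Pool.Agent.Lib.MP_7f8aca_lc

theorem result (Φ : LB.Theory) (hfin : Φ.Finite)
    (htrue : ∀ φ ∈ Φ, @Sentence.Realize LB ℕ stdB φ) :
    ∃ (L : FirstOrder.Language.{0, 0}) (A : L.Theory) (N : Tr LB L) (n : ℕ),
      Finite L.Symbols ∧ A.Finite ∧ Sequential A ∧ N.Interprets A (Φ ∪ PIND) ∧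
      ∀ I : L.Formula Unit, IsCut A N I →
        ∃ (B : L.Formula Unit) (M : Tr L L),
          qr (ex (N.dom ⊓ B)) ≤ n ∧ M.Interprets A A ∧ M.RankLE n ∧
          A ⊨ᵇ M.trF (ex (I ⊓ B)) ∧
          ∀ m : ℕ, ¬ A ⊨ᵇ M.trF (ex (N.dom ⊓ N.trF (leNum m) ⊓ B)) := by
  have : Finite (Φ : Set LB.Sentence) := hfin
  obtain ⟨h1, h2, h3⟩ := main (Φ := Φ) htrue
  refine ⟨LL, AA Φ, N0, max (qr (ex (N0.dom ⊓ B0))) (qr gfix), inferInstance,
    Set.finite_singleton _, h1, h2, fun I hI => ?_⟩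
  obtain ⟨M, h4, h5, h6, h7⟩ := h3 I hI
  exact ⟨B0, M, le_max_left _ _, h4, h5 _ (le_max_right _ _), h6, h7⟩

end Pool.Agent.Results.MP_7f8aca_lc.Counterexample
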